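import Pool.Agent.Helper61.NW.Goals
import Pool.Agent.Helper52.Wq2.Minor

/-!
# UNIV: a complete minor from a grid of connected sets
-/

set_option autoImplicit false

namespace Pool.Agent.Helper58.UN

open Pool.Agent.Helper52.Wq2 Pool.Agent.Helper61.NW

universe u

variable {V : Type u} {G : SimpleGraph V}

/-- Reachability inside `X`. -/
def Rr (G : SimpleGraph V) (X : Set V) (x y : V) : Prop :=
  Relation.ReflTransGen (fun a b => G.Adj a b ∧ b ∈ X) x y

theorem rr_mono {X Y : Set V} (h : X ⊆ Y) {x y : V} (hr : Rr G X x y) : Rr G Y x y := by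
  induction hr with
  | refl => exact Relation.ReflTransGen.refl
  | tail _ hbc ih => exact ih.tail ⟨hbc.1, h hbc.2⟩

theorem rr_of_conn {X : Set V} (h : Conn G X) {x y : V} (hx : x ∈ X) (hy : y ∈ X) : Rr G X x y := by
  have := h.2 {z | z ∈ X ∧ Rr G X x z} (fun z hz => hz.1) ⟨x, hx, Relation.ReflTransGen.refl⟩ (by
    rintro a ⟨_, har⟩ b hb hab
    exact ⟨hb, har.tail ⟨hab, hb⟩⟩)
  exact (this hy).2

theorem grid_kn (L M : ℕ → Set V) (C : ℕ → ℕ → Set V) (hL : ∀ i, Conn G (L i))
    (hM : ∀ i, Conn G (M i)) (hC : ∀ i j, Conn G (C i j))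
    (dL : ∀ i j x, x ∈ L i → x ∈ L j → i = j) (dM : ∀ i j x, x ∈ M i → x ∈ M j → i = j)
    (dLM : ∀ i j x, x ∈ L i → x ∉ M j)
    (cL : ∀ i j, ∃ x, x ∈ C i j ∧ x ∈ L i) (cM : ∀ i j, ∃ x, x ∈ C i j ∧ x ∈ M j)
    (dCL : ∀ i j k x, x ∈ C i j → x ∈ L k → k = i) (dCM : ∀ i j k x, x ∈ C i j → x ∈ M k → k = j)
    (dC : ∀ i j i' j' x, x ∈ C i j → x ∈ C i' j' → i = i' ∧ j = j') : KN G := by
  -- the part of `C i j` before `M j`
  let Q : ℕ → ℕ → Set V := fun i j =>
    {z | z ∈ C i j ∧ z ∉ M j ∧ ∃ x, x ∈ C i j ∧ x ∈ L i ∧ Rr G (C i j \ M j) x z}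
  let B : ℕ → Set V := fun i => {z | z ∈ L i ∨ z ∈ M i ∨ z ∈ C i i ∨ ∃ j, i < j ∧ z ∈ Q i j}
  refine ⟨B, ?_, ?_, ?_⟩
  · intro i
    obtain ⟨r, hr1, hr2⟩ := cL i i
    obtain ⟨t, ht1, ht2⟩ := cM i i
    have sL : L i ⊆ B i := fun z hz => Or.inl hz
    have sM : M i ⊆ B i := fun z hz => Or.inr (Or.inl hz)
    have sC : C i i ⊆ B i := fun z hz => Or.inr (Or.inr (Or.inl hz))
    refine conn_of_root (r := r) (sL hr2) ?_
    rintro z (hz | hz | hz | ⟨j, hij, hz⟩)
    · exact rr_mono sL (rr_of_conn (hL i) hr2 hz)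
    · exact (rr_mono sC (rr_of_conn (hC i i) hr1 ht1)).trans
        (rr_mono sM (rr_of_conn (hM i) ht2 hz))
    · exact rr_mono sC (rr_of_conn (hC i i) hr1 hz)
    · obtain ⟨h1, h2, x, hx1, hx2, hx3⟩ := hz
      have key : ∀ w, Rr G (C i j \ M j) x w → Rr G (B i) x w := by
        intro w hw
        induction hw with
        | refl => exact Relation.ReflTransGen.refl
        | @tail a b hab hbc ih =>
          refine ih.tail ⟨hbc.1, Or.inr (Or.inr (Or.inr ⟨j, hij, hbc.2.1, hbc.2.2, x, hx1, hx2, ?_⟩))⟩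
          exact Relation.ReflTransGen.tail hab hbc
      exact (rr_mono sL (rr_of_conn (hL i) hr2 hx2)).trans (key z hx3)
  · have key : ∀ i j z, i < j → z ∈ B i → z ∈ B j → False := by
      intro i j z hij hi hj
      rcases hi with hi | hi | hi | ⟨k, hk, hi, hi', -⟩
      · rcases hj with hj | hj | hj | ⟨l, hl, hj, hj', -⟩
        · exact hij.ne (dL i j z hi hj)
        · exact dLM i j z hi hj
        · exact hij.ne (dCL j j i z hj hi)
        · exact hij.ne (dCL j l i z hj hi)
      · rcases hj with hj | hj | hj | ⟨l, hl, hj, hj', -⟩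
        · exact dLM j i z hj hi
        · exact hij.ne (dM i j z hi hj)
        · exact hij.ne (dCM j j i z hj hi)
        · have := dCM j l i z hj hi
          omega
      · rcases hj with hj | hj | hj | ⟨l, hl, hj, hj', -⟩
        · exact hij.ne (dCL i i j z hi hj).symm
        · exact hij.ne (dCM i i j z hi hj).symm
        · exact hij.ne (dC i i j j z hi hj).1
        · exact hij.ne (dC i i j l z hi hj).1
      · rcases hj with hj | hj | hj | ⟨l, hl, hj, hj', -⟩
        · exact hij.ne (dCL i k j z hi hj).symm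
        · have := dCM i k j z hi hj
          subst this
          exact hi' hj
        · exact hij.ne (dC i k j j z hi hj).1
        · exact hij.ne (dC i k j l z hi hj).1
    intro i j z hi hj
    by_contra hne
    rcases Nat.lt_or_gt_of_ne hne with h | h
    · exact key i j z h hi hj
    · exact key j i z h hj hi
  · have key : ∀ i j, i < j → ∃ a ∈ B i, ∃ b ∈ B j, G.Adj a b := by
      intro i j hij
      obtain ⟨x, hx1, hx2⟩ := cL i j
      obtain ⟨y, hy1, hy2⟩ := cM i j
      have hxM : x ∉ M j := dLM i j x hx2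
      have hr := rr_of_conn (hC i j) hx1 hy1
      by_contra hno
      have hall : ∀ w, Rr G (C i j) x w → Rr G (C i j \ M j) x w := by
        intro w hw
        induction hw with
        | refl => exact Relation.ReflTransGen.refl
        | @tail a b _ hbc ih =>
          by_cases hb : b ∈ M j
          · exfalso
            refine hno ⟨a, ?_, b, Or.inr (Or.inl hb), hbc.1⟩
            rcases Relation.ReflTransGen.cases_tail ih with h | ⟨c, _, hca⟩
            · rw [h]; exact Or.inl hx2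
            · exact Or.inr (Or.inr (Or.inr ⟨j, hij, hca.2.1, hca.2.2, x, hx1, hx2, ih⟩))
          · exact ih.tail ⟨hbc.1, hbc.2, hb⟩
      rcases Relation.ReflTransGen.cases_tail (hall y hr) with h | ⟨c, _, hca⟩
      · exact hxM (h ▸ hy2)
      · exact hca.2.2 hy2
    intro i j hij
    rcases Nat.lt_or_gt_of_ne (show i ≠ j from hij) with h | h
    · exact key i j h
    · obtain ⟨a, ha, b, hb, hab⟩ := key j i h
      exact ⟨b, hb, a, ha, hab.symm⟩

end Pool.Agent.Helper58.UN
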