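import Pool.Agent.Helper52.UN.U3

/-!
# UNIV: `Vn` passes to the improper subgroup
-/

set_option autoImplicit false

namespace Pool.Agent.Helper58.UN

open Pool.Agent.Helper52.UN

universe u

theorem fi_map {A B : Type u} [Group A] [Group B] (e : A ≃* B) (H : Subgroup A)
    (h : H.FiniteIndex) : (H.map (e : A →* B)).FiniteIndex := by
  refine ⟨?_⟩
  rw [Subgroup.index_map_equiv]
  exact h.index_ne_zero

theorem vn_equiv {A B : Type u} [Group A] [Group B] (e : A ≃* B) (h : Vn A) : Vn B := by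
  obtain ⟨⟨N, hN, hn⟩, hc, hK⟩ := h
  refine ⟨⟨N.map (e : A →* B), fi_map e N hN, ?_⟩, ?_, ?_⟩
  · exact Group.nilpotent_of_mulEquiv (e.subgroupMap N)
  · rintro ⟨c, hc'⟩
    refine hc ⟨e.symm c, ?_⟩
    have := fi_map e.symm _ hc'
    rw [MonoidHom.map_zpowers] at this
    exact this
  · rcases hK with ⟨K, h1, h2, h3⟩ | hA
    · refine Or.inl ⟨K.map (e : A →* B), h1.map _ e.surjective, ?_, ?_⟩
      · intro hb
        exact h2 ((Subgroup.map_eq_bot_iff_of_injective K e.injective).1 hb)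
      · rw [Subgroup.coe_map]
        exact h3.image _
    · refine Or.inr ?_
      rintro ⟨C, hC, ⟨f⟩⟩
      exact hA ⟨C.map (e.symm : B →* A), fi_map e.symm C hC,
        ⟨(e.symm.subgroupMap C).symm.trans f⟩⟩

theorem vn_top {Γ : Type u} [Group Γ] (h : Vn Γ) : Vn (⊤ : Subgroup Γ) :=
  vn_equiv Subgroup.topEquiv.symm h

end Pool.Agent.Helper58.UN
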