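import Pool.Agent.Helper58.BT.Red
import Pool.Agent.Helper52.Wq2.Minor

/-!
# Universal groups: a Cayley graph of a subgroup is a minor
-/

set_option autoImplicit false

namespace Pool.Agent.Helper58.UN

open Pool.Agent.Helper58.VF Pool.Agent.Helper58.Red

universe u

/-- **Reduction** for every subgroup. -/
theorem reduction0 (Γ : Type u) [Group Γ] (S : Set Γ) (hS : Subgroup.closure S = ⊤)
    (hs : ∀ s ∈ S, s⁻¹ ∈ S) (h1 : (1 : Γ) ∉ S) (D : Subgroup Γ) :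
    ∃ T : Set D, Subgroup.closure T = ⊤ ∧ (∀ t ∈ T, t⁻¹ ∈ T) ∧ (1 : D) ∉ T ∧
      ∃ φ : D → Set Γ, (∀ g, ((cay S).induce (φ g)).Connected) ∧
        (∀ g h, g ≠ h → Disjoint (φ g) (φ h)) ∧
        ∀ g h, (cay T).Adj g h → ∃ a ∈ φ g, ∃ b ∈ φ h, (cay S).Adj a b := by
  obtain ⟨X, ⟨hX1, hX2, hX3⟩, hcov⟩ := transversal hS hs h1 D
  have hone : ∀ s ∈ S, ∀ x : Γ, (cay S).Adj x (x * s) := by
    intro s hsS x
    refine cay_adj.2 ⟨?_, Or.inl (by rw [inv_mul_cancel_left]; exact hsS)⟩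
    intro h
    have h2 : x * 1 = x * s := by rw [mul_one]; exact h
    exact h1 ((mul_left_cancel h2) ▸ hsS)
  let T : Set D := {t | t ≠ 1 ∧ ∃ x ∈ X, ∃ y ∈ X, (cay S).Adj x ((t : Γ) * y)}
  have hTs : ∀ t ∈ T, t⁻¹ ∈ T := by
    rintro t ⟨ht, x, hx, y, hy, hxy⟩
    refine ⟨fun h => ht (inv_eq_one.1 h), y, hy, x, hx, ?_⟩
    have := cay_mul ((t : Γ)⁻¹) hxy
    rw [inv_mul_cancel_left] at this
    exact this.symm
  have hstep : ∀ (d e : D) (y z : Γ), (d : Γ)⁻¹ * y ∈ X → (e : Γ)⁻¹ * z ∈ X →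
      (cay S).Adj y z → d⁻¹ * e ∈ Subgroup.closure T := by
    intro d e y z hy hz hyz
    by_cases h : d⁻¹ * e = 1
    · rw [h]; exact Subgroup.one_mem _
    · refine Subgroup.subset_closure ⟨h, _, hy, _, hz, ?_⟩
      have := cay_mul ((d : Γ)⁻¹) hyz
      have e1 : ((d⁻¹ * e : D) : Γ) * ((e : Γ)⁻¹ * z) = (d : Γ)⁻¹ * z := by
        push_cast
        group
      rwa [e1]
  have hgen : Subgroup.closure T = ⊤ := by
    rw [eq_top_iff]
    rintro g -
    have hB := all_of_closed hS hs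
      {y : Γ | ∃ d : D, d ∈ Subgroup.closure T ∧ (d : Γ)⁻¹ * y ∈ X}
      ⟨1, Subgroup.one_mem _, by simpa using hX1⟩ ?_ (g : Γ)
    · obtain ⟨d, hd, hdX⟩ := hB
      have h2 := hX3 1 hX1 _ hdX (by
        rw [inv_one, mul_one]
        exact D.mul_mem (D.inv_mem d.2) g.2)
      have h3 : (d : Γ) = g := by
        rw [eq_comm, inv_mul_eq_one] at h2
        exact h2
      rw [← Subtype.ext h3]
      exact hd
    · rintro s hsS y ⟨d, hd, hdX⟩
      obtain ⟨e, heD, he⟩ := hcov (y * s)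
      refine ⟨⟨e, heD⟩, ?_, he⟩
      have := hstep d ⟨e, heD⟩ y (y * s) hdX he (hone s hsS y)
      have h4 := Subgroup.mul_mem _ hd this
      rwa [mul_inv_cancel_left] at h4
  refine ⟨T, hgen, hTs, fun h => h.1 rfl, fun g => {y | (g : Γ)⁻¹ * y ∈ X}, ?_, ?_, ?_⟩
  · intro g
    refine conn_of_rch (x₀ := (g : Γ)) (by simpa using hX1) ?_
    intro y hy
    have := hX2 _ hy
    have h5 : Rch (cay S) {y | (g : Γ)⁻¹ * y ∈ X} ((g : Γ) * 1) ((g : Γ) * ((g : Γ)⁻¹ * y)) :=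
      Relation.ReflTransGen.lift (r := fun u v => (cay S).Adj u v ∧ v ∈ X)
        (p := fun u v => (cay S).Adj u v ∧ v ∈ {y | (g : Γ)⁻¹ * y ∈ X}) (fun x => (g : Γ) * x)
        (fun a c hac => ⟨cay_mul _ hac.1, by simpa using hac.2⟩) _ _ this
    rwa [mul_one, mul_inv_cancel_left] at h5
  · intro g h hgh
    rw [Set.disjoint_left]
    intro y hg hh
    have h6 := hX3 _ hg _ hh (by
      have : (h : Γ)⁻¹ * y * ((g : Γ)⁻¹ * y)⁻¹ = (h : Γ)⁻¹ * g := by group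
      rw [this]
      exact D.mul_mem (D.inv_mem h.2) g.2)
    have h7 := mul_right_cancel h6
    exact hgh (Subtype.ext (inv_injective h7))
  · intro g h hgh
    rcases (cay_adj.1 hgh).2 with ⟨-, x, hx, y, hy, hxy⟩ | ⟨-, x, hx, y, hy, hxy⟩
    · refine ⟨(g : Γ) * x, by simpa using hx, (h : Γ) * y, by simpa using hy, ?_⟩
      have := cay_mul (g : Γ) hxy
      have e1 : (g : Γ) * (((g⁻¹ * h : D) : Γ) * y) = (h : Γ) * y := by
        push_cast
        group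
      rwa [e1] at this
    · refine ⟨(g : Γ) * y, by simpa using hy, (h : Γ) * x, by simpa using hx, ?_⟩
      have := cay_mul (h : Γ) hxy
      have e1 : (h : Γ) * (((h⁻¹ * g : D) : Γ) * y) = (g : Γ) * y := by
        push_cast
        group
      rw [e1] at this
      exact this.symm

/-- **U1.** -/
theorem u1 {Γ : Type u} [Group Γ] {S : Set Γ} (hS : Pool.Agent.Helper52.Wq2.IsGen S)
    (D : Subgroup Γ) : ∃ T : Set D, Pool.Agent.Helper52.Wq2.IsGen T ∧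
      Pool.Agent.Helper52.Wq2.Mn (Pool.Agent.Helper52.Wq2.cay T)
        (Pool.Agent.Helper52.Wq2.cay S) := by
  obtain ⟨T, h1, h2, h3, φ, k1, k2, k3⟩ := reduction0 Γ S hS.1 hS.2.1 hS.2.2 D
  refine ⟨T, ⟨h1, h2, h3⟩, φ, fun g => (Pool.Agent.Helper52.Wq2.conn_iff _ _).1 (k1 g), ?_, k3⟩
  intro g g' x hx hx'
  by_contra hne
  exact Set.disjoint_left.1 (k2 g g' hne) hx hx'

end Pool.Agent.Helper58.UN
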