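import Pool.Agent.Helper58.UN.U1
import Pool.Agent.Helper61.NW.Goals
import Pool.Agent.Results.MP_266b34_co.InfiniteGenerators

/-!
# Universal groups: subgroups which are not finitely generated
-/

set_option autoImplicit false

namespace Pool.Agent.Helper58.UN

open Pool.Agent.Helper52.Wq2 Pool.Agent.Helper61.NW

universe u

/-- Every Cayley graph contains every countable graph. -/
def Univ (Γ : Type u) [Group Γ] : Prop := ∀ S : Set Γ, IsGen S → KN (cay S)

/-- **U1.** -/
theorem univ_of_subgroup {Γ : Type u} [Group Γ] (D : Subgroup Γ) (hD : Univ D) : Univ Γ := by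
  intro S hS
  obtain ⟨T, hT, hm⟩ := u1 hS D
  exact (hD T hT).trans hm

/-- **U2.** A group which is not finitely generated and all whose Cayley graphs of infinite degree
contain every countable graph. -/
theorem univ_of_not_fg {D : Type u} [Group D] (hfg : ¬ Group.FG D)
    (hrich : ∀ T : Set D, IsGen T → T.Infinite → KN (cay T)) : Univ D := by
  intro T hT
  refine hrich T hT ?_
  intro hfin
  exact hfg (Group.fg_iff.2 ⟨T, hT.1, hfin⟩)

/-- The tame groups of `InfiniteGenerators`. -/
def TameG (D : Type u) [Group D] : Prop :=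
  (∃ N : Subgroup D, N.Normal ∧ Infinite N ∧
    ((∀ f : FreeGroup (Fin 2) →* N, ¬ Function.Injective f) ∨
      Infinite (Subgroup.centralizer (N : Set D)))) ∨
  ∀ U : Set D, (∀ g : D, {x | x ∈ U ∧ x * g ∉ U}.Finite) → U.Finite ∨ Uᶜ.Finite

theorem rich_of_tame {D : Type u} [Group D] (hD : TameG D) (T : Set D) (hT : IsGen T)
    (hinf : T.Infinite) : KN (cay T) := by
  have ht : Pool.Agent.Results.MP_266b34_co.InfiniteGenerators.Tame T := by
    rcases hD with h | h
    · exact Or.inl h
    · exact Or.inr (Or.inl h)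
  obtain ⟨φ, k1, k2, k3⟩ :=
    Pool.Agent.Results.MP_266b34_co.InfiniteGenerators.result.{u, 0}.1 D T hT hinf ht
      ℕ (⊤ : SimpleGraph ℕ)
  refine ⟨φ, fun i => (conn_iff _ _).1 (k1 i), ?_, k3⟩
  intro i j x hi hj
  by_contra hne
  exact Set.disjoint_left.1 (k2 i j hne) hi hj

/-- A group with a tame subgroup which is not finitely generated is universal. -/
theorem univ_of_tame {Γ : Type u} [Group Γ] (D : Subgroup Γ) (hfg : ¬ Group.FG D)
    (hD : TameG D) : Univ Γ :=
  univ_of_subgroup D (univ_of_not_fg hfg (rich_of_tame hD))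

end Pool.Agent.Helper58.UN
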